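import Mathlib

set_option autoImplicit false

namespace Pool.Agent.Results.MP_9ed947_gt.No

open UpperHalfPlane MeasureTheory

theorem result : ∀ c : ℝ, Real.log 2 < c →
    ∃ (X : Set UpperHalfPlane) (ρ σ : UpperHalfPlane ≃ᵢ UpperHalfPlane) (P : UpperHalfPlane),
      MeasurableSet X ∧ 0 < volume X ∧
      Disjoint (ρ '' X) (σ '' X) ∧ ρ '' X ∪ σ '' X = X ∧
      dist P (ρ P) < c ∧ dist P (σ P) < c := by
  intro c hc
  let h : {x : ℝ // 0 < x} := ⟨1 / 2, by norm_num⟩
  let h' : {x : ℝ // 0 < x} := ⟨2, by norm_num⟩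
  have hh : h * h' = 1 := Subtype.ext (by show (1 / 2 : ℝ) * 2 = 1; norm_num)
  have hh' : h' * h = 1 := Subtype.ext (by show 2 * (1 / 2 : ℝ) = 1; norm_num)
  let ρ : ℍ ≃ᵢ ℍ :=
    { toFun := fun z => h • z
      invFun := fun z => h' • z
      left_inv := fun z => by simp only [smul_smul, hh', one_smul]
      right_inv := fun z => by simp only [smul_smul, hh, one_smul]
      isometry_toFun := isometry_pos_mul h }
  let τ : ℍ ≃ᵢ ℍ :=
    { toFun := fun z => (1 / 2 : ℝ) +ᵥ z
      invFun := fun z => (-(1 / 2) : ℝ) +ᵥ z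
      left_inv := fun z => by simp only [vadd_vadd, neg_add_cancel, zero_vadd]
      right_inv := fun z => by simp only [vadd_vadd, add_neg_cancel, zero_vadd]
      isometry_toFun := isometry_real_vadd _ }
  have hρre : ∀ z : ℍ, (ρ z).re = z.re / 2 := fun z => by
    show (h • z).re = _
    rw [pos_real_re]; show 1 / 2 * z.re = _; ring
  have hρim : ∀ z : ℍ, (ρ z).im = z.im / 2 := fun z => by
    show (h • z).im = _
    rw [pos_real_im]; show 1 / 2 * z.im = _; ring
  have hτre : ∀ z : ℍ, (τ z).re = 1 / 2 + z.re := fun z => vadd_re _ z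
  have hτim : ∀ z : ℍ, (τ z).im = z.im := fun z => vadd_im _ z
  have hσre : ∀ z : ℍ, ((ρ.trans τ) z).re = 1 / 2 + z.re / 2 := fun z => by
    rw [IsometryEquiv.trans_apply, hτre, hρre]
  have hd : 0 < c - Real.log 2 := sub_pos.2 hc
  let T : ℝ := 2 / (c - Real.log 2)
  have hT : 0 < T := by positivity
  let P : ℍ := ⟨⟨0, T⟩, hT⟩
  have hP : dist P (ρ P) = Real.log 2 := by
    rw [dist_of_re_eq (by rw [hρre]; show (0 : ℝ) = 0 / 2; norm_num), hρim]
    show dist (Real.log T) (Real.log (T / 2)) = _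
    rw [Real.log_div hT.ne' (by norm_num), Real.dist_eq]
    have : 0 < Real.log 2 := Real.log_pos (by norm_num)
    rw [sub_sub_cancel, abs_of_pos this]
  refine ⟨{z | 0 ≤ z.re ∧ z.re < 1}, ρ, ρ.trans τ, P, ?_, ?_, ?_, ?_, by rw [hP]; exact hc, ?_⟩
  · exact (measurableSet_le measurable_const continuous_re.measurable).inter
      (measurableSet_lt continuous_re.measurable measurable_const)
  · rw [volume_eq_lintegral, setLIntegral_pos_iff (by fun_prop)]
    have hU : IsOpen {z : ℂ | 0 < z.re ∧ z.re < 1 ∧ 0 < z.im} :=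
      (isOpen_lt continuous_const Complex.continuous_re).inter
        ((isOpen_lt Complex.continuous_re continuous_const).inter
          (isOpen_lt continuous_const Complex.continuous_im))
    refine (hU.measure_pos volume ⟨⟨1 / 2, 1⟩, by norm_num, by norm_num, by norm_num⟩).trans_le
      (measure_mono ?_)
    rintro z ⟨h1, h2, h3⟩
    refine ⟨?_, ⟨⟨z, h3⟩, ⟨h1.le, h2⟩, rfl⟩⟩
    simpa using h3.ne'
  · rw [Set.disjoint_left]
    rintro _ ⟨z, hz, rfl⟩ ⟨w, hw, hzw⟩
    have := congrArg UpperHalfPlane.re hzw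
    rw [hσre, hρre] at this
    linarith [hz.2, hw.1]
  · ext z
    constructor
    · rintro (⟨w, hw, rfl⟩ | ⟨w, hw, rfl⟩)
      · refine ⟨?_, ?_⟩ <;> rw [hρre] <;> linarith [hw.1, hw.2]
      · refine ⟨?_, ?_⟩ <;> rw [hσre] <;> linarith [hw.1, hw.2]
    · intro hz
      by_cases h2 : z.re < 1 / 2
      · refine Or.inl ⟨ρ.symm z, ?_, ρ.apply_symm_apply z⟩
        have := hρre (ρ.symm z)
        rw [ρ.apply_symm_apply] at this
        constructor <;> linarith [hz.1]
      · refine Or.inr ⟨(ρ.trans τ).symm z, ?_, (ρ.trans τ).apply_symm_apply z⟩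
        have := hσre ((ρ.trans τ).symm z)
        rw [(ρ.trans τ).apply_symm_apply] at this
        constructor <;> linarith [hz.2]
  · have h1 := dist_triangle P (ρ P) (τ (ρ P))
    have h2 := dist_le_dist_coe_div_sqrt (ρ P) (τ (ρ P))
    have h3 : dist ((ρ P : ℍ) : ℂ) (τ (ρ P) : ℍ) = 1 / 2 := by
      show dist ((ρ P : ℍ) : ℂ) (((1 / 2 : ℝ) +ᵥ ρ P : ℍ) : ℂ) = 1 / 2
      rw [coe_vadd, add_comm, dist_self_add_right]
      simp
    rw [h3, hτim, Real.sqrt_mul_self (ρ P).im_pos.le, hρim] at h2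
    have h4 : 1 / 2 / (P.im / 2) = (c - Real.log 2) / 2 := by
      show 1 / 2 / (2 / (c - Real.log 2) / 2) = _
      field_simp
    rw [IsometryEquiv.trans_apply]
    linarith

end Pool.Agent.Results.MP_9ed947_gt.No
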